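import Pool.Agent.H.MP_3ac48a_al.A

namespace Pool.Agent.Results.MP_3ac48a_al.Yes

open Pool.Agent.H.MP_3ac48a_al

theorem result :
    (∃ φ : FreeGroup ℕ ≃ G2, ∀ A, A ∈ Comm (FreeGroup ℕ) ↔ φ '' A ∈ Comm G2) ∧
    Nonempty (Pstar (FreeGroup ℕ) ≃o Pstar G2) :=
  ⟨exists_bij, exists_bij.elim fun φ h => iso_of φ h⟩

end Pool.Agent.Results.MP_3ac48a_al.Yes
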